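import Pool.Agent.H25.QRay2

set_option autoImplicit false
open Pool.Agent.H25.Ray

namespace Pool.Agent.Results.MP_a0fd6e_gt.Yes

theorem result (T : Type) [PartialOrder T] (hT : IsTree T) (U : Set (RS True T)) (hU : IsOpen U) :
    ∃ (T' : Type) (_ : PartialOrder T'), IsTree T' ∧
      ∃ f : U → RS True T', Continuous f ∧ Function.Bijective f :=
  Pool.Agent.H25.QRay.main hT hU

end Pool.Agent.Results.MP_a0fd6e_gt.Yes
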